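import Pool.Agent.NTS.Law

/-!
PW_66, row E, the walks of `n` steps: the part of the walk after it has been far from its starting point turns only boundedly
often around the starting point (helper69).

* `arg_div` : the argument of a quotient of two points of the right half plane;
* `sum_block` : the sum of the arguments of the steps of a path in a half plane is the argument of one quotient;
* `sum_blocks` : a path far from `0` which moves slowly;
* `far_wind_of` : from the first clause of LimitSimple and the modulus of continuity of `X_n`.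
-/

set_option autoImplicit false

namespace Pool.Agent.PWN

open Finset MeasureTheory Filter Topology Complex

open Pool.Agent.NTS.Res

open scoped ENNReal Classical

lemma arg_div {a b : ℂ} (ha : 0 < a.re) (hb : 0 < b.re) : (b / a).arg = b.arg - a.arg := by
  have ha0 : a ≠ 0 := fun h => by rw [h] at ha; simp at ha
  have hb0 : b ≠ 0 := fun h => by rw [h] at hb; simp at hb
  have h1 : |a.arg| < Real.pi / 2 := Complex.abs_arg_lt_pi_div_two_iff.2 (Or.inl ha)
  have h2 : |b.arg| < Real.pi / 2 := Complex.abs_arg_lt_pi_div_two_iff.2 (Or.inl hb)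
  rw [abs_lt] at h1 h2
  have h3 : b.arg - a.arg ∈ Set.Ioc (-Real.pi) Real.pi := ⟨by linarith [h1.2, h2.1], by linarith [h1.1, h2.2]⟩
  have h4 : b / a = ((‖b‖ / ‖a‖ : ℝ) : ℂ) * (Complex.cos ((b.arg - a.arg : ℝ) : ℂ) + Complex.sin ((b.arg - a.arg : ℝ) : ℂ) * I) := by
    have e1 : (b : ℂ) = ‖b‖ * Complex.exp (b.arg * I) := (Complex.norm_mul_exp_arg_mul_I b).symm
    have e2 : (a : ℂ) = ‖a‖ * Complex.exp (a.arg * I) := (Complex.norm_mul_exp_arg_mul_I a).symm
    have e3 : Complex.cos ((b.arg - a.arg : ℝ) : ℂ) + Complex.sin ((b.arg - a.arg : ℝ) : ℂ) * I =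
        Complex.exp (b.arg * I) / Complex.exp (a.arg * I) := by
      rw [← Complex.exp_sub, ← sub_mul, ← Complex.ofReal_sub, Complex.exp_mul_I]
    rw [e3]
    conv_lhs => rw [e1, e2]
    push_cast
    rw [mul_div_mul_comm]
  rw [h4]
  exact Complex.arg_mul_cos_add_sin_mul_I (div_pos (norm_pos_iff.2 hb0) (norm_pos_iff.2 ha0)) h3

/-- the total angle of a path -/
noncomputable def tot (z : ℕ → ℂ) (i j : ℕ) : ℝ := ∑ k ∈ Ico i j, (z (k + 1) / z k).arg

lemma tot_add (z : ℕ → ℂ) {i j k : ℕ} (h : i ≤ j) (h' : j ≤ k) : tot z i j + tot z j k = tot z i k :=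
  sum_Ico_consecutive _ h h'

lemma tot_le (z : ℕ → ℂ) (i j : ℕ) : |tot z i j| ≤ Real.pi * ((j - i : ℕ) : ℝ) := by
  unfold tot
  refine (abs_sum_le_sum_abs _ _).trans ((sum_le_sum fun k _ => Complex.abs_arg_le_pi _).trans (le_of_eq ?_))
  rw [sum_const, Nat.card_Ico, nsmul_eq_mul, mul_comm]

lemma sum_block (z : ℕ → ℂ) {i j : ℕ} (hij : i ≤ j) (h : ∀ k, i ≤ k → k ≤ j → 0 < (z k / z i).re) :
    tot z i j = (z j / z i).arg := by
  induction j, hij using Nat.le_induction with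
  | base =>
    have h1 := h i le_rfl le_rfl
    have h0 : z i ≠ 0 := fun h0 => by rw [h0] at h1; simp at h1
    unfold tot
    rw [Ico_self, sum_empty, div_self h0, Complex.arg_one]
  | succ j hij ih =>
    have h1 := ih fun k h1 h2 => h k h1 (h2.trans (Nat.le_succ j))
    have hj := h j hij (Nat.le_succ j)
    have hj1 := h (j + 1) (hij.trans (Nat.le_succ j)) le_rfl
    have h0 : z i ≠ 0 := fun h0 => by rw [h0] at hj; simp at hj
    have e : z (j + 1) / z j = z (j + 1) / z i / (z j / z i) := by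
      rw [div_div_div_cancel_right₀ h0]
    rw [← tot_add z hij (Nat.le_succ j), h1]
    have h2 : tot z j (j + 1) = (z (j + 1) / z j).arg := by
      unfold tot
      rw [Nat.Ico_succ_singleton, sum_singleton]
    rw [h2, e, arg_div hj hj1]
    ring

lemma re_pos {a b : ℂ} (h : ‖b - a‖ < ‖a‖) : 0 < (b / a).re := by
  have ha : a ≠ 0 := fun h0 => by
    rw [h0, norm_zero] at h
    exact absurd h (not_lt.2 (norm_nonneg _))
  have h1 : b / a = 1 + (b - a) / a := by
    field_simp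
    ring
  rw [h1, Complex.add_re, Complex.one_re]
  have h2 : |((b - a) / a).re| ≤ ‖(b - a) / a‖ := Complex.abs_re_le_norm _
  rw [norm_div] at h2
  have h3 : ‖b - a‖ / ‖a‖ < 1 := (div_lt_one (norm_pos_iff.2 ha)).2 h
  have h4 := neg_abs_le ((b - a) / a).re
  linarith

/-- a path far from `0` which moves slowly turns only boundedly often -/
lemma sum_blocks (z : ℕ → ℂ) {τ n q : ℕ} {r : ℝ} (hq : 1 ≤ q) (hr : ∀ j, τ ≤ j → j ≤ n → r ≤ ‖z j‖)
    (ho : ∀ i j, τ ≤ i → i ≤ j → j ≤ n → j ≤ i + q → ‖z j - z i‖ < r) :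
    ∀ m : ℕ, ∀ i, τ ≤ i → i ≤ n → n ≤ i + m * q → |tot z i n| ≤ Real.pi * m := by
  intro m
  induction m with
  | zero =>
    intro i _ hin hn
    have h1 : i = n := by omega
    unfold tot
    rw [h1, Ico_self, sum_empty, abs_zero]
    simp
  | succ m ih =>
    intro i hi hin hn
    have hb : ∀ j, i ≤ j → j ≤ n → j ≤ i + q → |tot z i j| ≤ Real.pi := by
      intro j hij hjn hjq
      rw [sum_block z hij fun k h1 h2 => re_pos ((ho i k hi h1 (h2.trans hjn) (h2.trans hjq)).trans_le (hr i hi hin))]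
      exact Complex.abs_arg_le_pi _
    rcases le_total n (i + q) with h | h
    · refine (hb n hin le_rfl h).trans ?_
      have : (0 : ℝ) ≤ Real.pi * m := mul_nonneg Real.pi_pos.le (Nat.cast_nonneg m)
      push_cast
      linarith
    · have h1 := hb (i + q) (Nat.le_add_right _ _) h le_rfl
      have h2 := ih (i + q) (by omega) h (by rw [Nat.succ_mul] at hn; omega)
      rw [← tot_add z (Nat.le_add_right i q) h]
      refine (abs_add_le _ _).trans ?_
      push_cast
      linarith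

/-- the points of the curve at the grid times -/
lemma grid {n : ℕ} (hn : 1 ≤ n) (s : Fin n → Fin 3) {x : ℕ} (hx : x ≤ n) (t : unitInterval)
    (ht : (t : ℝ) = (x : ℝ) / n) : curve s t = pos s x / size n := by
  have hn0 : (0 : ℝ) < n := by exact_mod_cast hn
  have h1 : (t : ℝ) * n = x := by
    rw [ht]
    field_simp
  rcases Nat.lt_or_ge x n with h | h
  · rw [NTSF.curve_eq, Tight.poly_apply h (le_of_eq h1.symm) (by linarith), h1]
    simp
  · have hxn : x = n := le_antisymm hx h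
    have h2 : t = 1 := by
      ext
      rw [ht, hxn]
      simp [hn0.ne']
    rw [h2, NTSF.curve_one, hxn]

/-- the grid time -/
noncomputable def gt {n : ℕ} {x : ℕ} (hx : x ≤ n) : unitInterval :=
  ⟨(x : ℝ) / n, by positivity, by
    rcases Nat.eq_zero_or_pos n with h | h
    · rw [h]; simp
    · rw [div_le_one (by exact_mod_cast h)]
      exact_mod_cast hx⟩

/-- the function of the modulus of continuity tends to `0` -/
lemma mod_small {M δ : ℝ} (hδ : 0 < δ) : ∃ h : ℝ, 0 < h ∧ ∀ u : ℝ, |u| ≤ h →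
    M * (|u| ^ (3 / 4 : ℝ) * (1 - Real.log |u|) ^ (1 / 4 : ℝ)) < δ := by
  have h0 : Tendsto (fun x : ℝ => x ^ (3 : ℝ) * (1 - Real.log x)) (𝓝[>] 0) (𝓝 0) := by
    have h1 : Tendsto (fun x : ℝ => Real.log x * x ^ (3 : ℝ)) (𝓝[>] 0) (𝓝 0) :=
      tendsto_log_mul_rpow_nhdsGT_zero (by norm_num)
    have h2 : Tendsto (fun x : ℝ => x ^ (3 : ℝ)) (𝓝[>] 0) (𝓝 0) := by
      have := (Real.continuousAt_rpow_const (0 : ℝ) (3 : ℝ) (Or.inr (by norm_num))).tendsto
      rw [Real.zero_rpow (by norm_num)] at this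
      exact this.mono_left nhdsWithin_le_nhds
    have h3 := h2.sub h1
    rw [sub_zero] at h3
    exact h3.congr fun x => by ring
  have h1 : Tendsto (fun x : ℝ => M * (x ^ (3 / 4 : ℝ) * (1 - Real.log x) ^ (1 / 4 : ℝ))) (𝓝[>] 0) (𝓝 0) := by
    have h2 : Tendsto (fun x : ℝ => M * (x ^ (3 : ℝ) * (1 - Real.log x)) ^ (1 / 4 : ℝ)) (𝓝[>] 0) (𝓝 0) := by
      have h3 := ((Real.continuousAt_rpow_const (0 : ℝ) (1 / 4 : ℝ) (Or.inr (by norm_num))).tendsto.comp h0).const_mul M
      rw [Real.zero_rpow (by norm_num), mul_zero] at h3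
      exact h3
    refine h2.congr' ?_
    have h4 : ∀ᶠ x : ℝ in 𝓝[>] 0, x < 1 := nhdsWithin_le_nhds (Iio_mem_nhds zero_lt_one)
    filter_upwards [h4, self_mem_nhdsWithin] with x hx hx0
    have hx0' : (0 : ℝ) < x := hx0
    have h5 : Real.log x ≤ 0 := Real.log_nonpos hx0'.le hx.le
    rw [Real.mul_rpow (Real.rpow_nonneg hx0'.le _) (by linarith), ← Real.rpow_mul hx0'.le]
    norm_num
  have h2 : ∀ᶠ x : ℝ in 𝓝[>] 0, M * (x ^ (3 / 4 : ℝ) * (1 - Real.log x) ^ (1 / 4 : ℝ)) < δ := h1.eventually (Iio_mem_nhds hδ)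
  obtain ⟨h, hh, h3⟩ := mem_nhdsGT_iff_exists_Ioo_subset.1 h2
  refine ⟨h / 2, by simpa using hh, fun u hu => ?_⟩
  rcases (abs_nonneg u).eq_or_lt with h4 | h4
  · rw [← h4, Real.zero_rpow (by norm_num), zero_mul, mul_zero]
    exact hδ
  · have hh' : (0 : ℝ) < h := hh
    exact h3 ⟨h4, by linarith⟩

lemma card_of_law {n : ℕ} {E : Set C(unitInterval, ℂ)} {c : ℝ} (hc : 0 ≤ c) (h : law n E ≤ ENNReal.ofReal c) :
    (((saw n).filter fun s => curve s ∈ E).card : ℝ) ≤ c * ((saw n).card : ℝ) := by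
  have h0 : (0 : ℝ) < ((saw n).card : ℝ) := by exact_mod_cast (NTSF.saw_nonempty n).card_pos
  rw [NTSF.law_apply] at h
  have h1 : ((((saw n).card : ℝ≥0∞)⁻¹ * (((saw n).filter fun s => curve s ∈ E).card : ℝ≥0∞)).toReal) ≤ c := by
    refine (ENNReal.toReal_mono ENNReal.ofReal_ne_top h).trans (le_of_eq (ENNReal.toReal_ofReal hc))
  rw [ENNReal.toReal_mul, ENNReal.toReal_inv, ENNReal.toReal_natCast, ENNReal.toReal_natCast] at h1
  rw [← div_le_iff₀ h0, div_eq_inv_mul]
  exact h1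

/-- **the far part of the walk winds only boundedly often around the starting point** -/
theorem far_wind_of
    (hS : ∀ η ε : ℝ, 0 < η → 0 < ε → ∃ δ : ℝ, 0 < δ ∧ ∀ n : ℕ, 1 ≤ n →
      law n {γ : C(unitInterval, ℂ) | ∃ p q r : unitInterval, p ≤ q ∧ q ≤ r ∧
        η < dist (γ q) (γ p) ∧ dist (γ r) (γ p) < δ} ≤ ENNReal.ofReal ε)
    (hM : ∀ ε : ℝ, 0 < ε → ∃ M : ℝ, ∀ n : ℕ, 1 ≤ n → law n {γ : C(unitInterval, ℂ) | ¬ ∀ s t : unitInterval,
      ‖γ s - γ t‖ ≤ M * (|(s : ℝ) - t| ^ (3 / 4 : ℝ) * (1 - Real.log |(s : ℝ) - t|) ^ (1 / 4 : ℝ))} ≤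
        ENNReal.ofReal ε)
    {a ε : ℝ} (ha : 0 < a) (hε : 0 < ε) : ∃ C : ℝ, 0 < C ∧ ∀ n : ℕ, 1 ≤ n →
      (((saw n).filter fun s => ∃ τ : ℕ, τ ≤ n ∧ a * size n < ‖pos s τ‖ ∧ C < |tot (pos s) τ n|).card : ℝ) ≤
        ε * ((saw n).card : ℝ) := by
  obtain ⟨δ, hδ, h1⟩ := hS a (ε / 2) ha (by positivity)
  obtain ⟨M, h2⟩ := hM (ε / 2) (by positivity)
  obtain ⟨h, hh, h3⟩ := mod_small (M := M) hδ
  refine ⟨Real.pi * (2 / h + 2), by positivity, fun n hn => ?_⟩
  have hn0 : (0 : ℝ) < n := by exact_mod_cast hn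
  have hz := NTSF.size_pos hn
  have hz' : ∀ v : ℂ, ‖v / (size n : ℂ)‖ = ‖v‖ / size n := fun v => by
    rw [norm_div, Complex.norm_real, Real.norm_of_nonneg hz.le]
  obtain ⟨E1, hE1⟩ : ∃ E : Set C(unitInterval, ℂ), E = {γ | ∃ p q r : unitInterval, p ≤ q ∧ q ≤ r ∧
        a < dist (γ q) (γ p) ∧ dist (γ r) (γ p) < δ} := ⟨_, rfl⟩
  obtain ⟨E2, hE2⟩ : ∃ E : Set C(unitInterval, ℂ), E = {γ | ¬ ∀ s t : unitInterval,
      ‖γ s - γ t‖ ≤ M * (|(s : ℝ) - t| ^ (3 / 4 : ℝ) * (1 - Real.log |(s : ℝ) - t|) ^ (1 / 4 : ℝ))} := ⟨_, rfl⟩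
  have c1 : (((saw n).filter fun s => curve s ∈ E1).card : ℝ) ≤ ε / 2 * ((saw n).card : ℝ) :=
    card_of_law (by positivity) (by rw [hE1]; exact h1 n hn)
  have c2 : (((saw n).filter fun s => curve s ∈ E2).card : ℝ) ≤ ε / 2 * ((saw n).card : ℝ) :=
    card_of_law (by positivity) (by rw [hE2]; exact h2 n hn)
  have key : ((saw n).filter fun s => ∃ τ : ℕ, τ ≤ n ∧ a * size n < ‖pos s τ‖ ∧ Real.pi * (2 / h + 2) < |tot (pos s) τ n|) ⊆
      ((saw n).filter fun s => curve s ∈ E1) ∪ ((saw n).filter fun s => curve s ∈ E2) := by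
    intro s hs
    rw [mem_filter] at hs
    obtain ⟨hs, τ, hτ, hτa, hτC⟩ := hs
    rw [mem_union, mem_filter, mem_filter]
    by_contra hc
    push Not at hc
    have b1 := hc.1 hs
    have b2 := hc.2 hs
    rw [hE1] at b1
    rw [hE2] at b2
    simp only [Set.mem_ofPred_eq, not_exists, not_and, not_lt, not_not] at b1 b2
    have g0 : curve s 0 = 0 := NTSF.curve_zero s
    have hfar : ∀ j, τ ≤ j → j ≤ n → δ * size n ≤ ‖pos s j‖ := by
      intro j hj hjn
      have e1 : curve s (gt hτ) = pos s τ / size n := grid hn s hτ _ rfl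
      have e2 : curve s (gt hjn) = pos s j / size n := grid hn s hjn _ rfl
      have l1 : gt hτ ≤ gt hjn := by
        show (τ : ℝ) / n ≤ (j : ℝ) / n
        gcongr
      have h4 := b1 0 (gt hτ) (gt hjn) (unitInterval.nonneg') l1 (by
        rw [g0, dist_zero_right, e1, hz', lt_div_iff₀ hz]
        exact hτa)
      rw [g0, dist_zero_right, e2, hz', le_div_iff₀ hz] at h4
      exact h4
    have hosc : ∀ i j, τ ≤ i → i ≤ j → j ≤ n → (j : ℝ) ≤ i + h * n → ‖pos s j - pos s i‖ < δ * size n := by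
      intro i j _ hij hjn hjq
      have e1 : curve s (gt (hij.trans hjn)) = pos s i / size n := grid hn s (hij.trans hjn) _ rfl
      have e2 : curve s (gt hjn) = pos s j / size n := grid hn s hjn _ rfl
      have l1 : |((gt hjn : unitInterval) : ℝ) - (gt (hij.trans hjn) : unitInterval)| ≤ h := by
        show |(j : ℝ) / n - (i : ℝ) / n| ≤ h
        have hij' : (i : ℝ) ≤ j := by exact_mod_cast hij
        rw [← sub_div, abs_of_nonneg (by positivity), div_le_iff₀ hn0]
        linarith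
      have h4 := (b2 (gt hjn) (gt (hij.trans hjn))).trans_lt (h3 _ l1)
      rw [e1, e2, ← sub_div, hz', div_lt_iff₀ hz] at h4
      exact h4
    refine absurd hτC (not_lt.2 ?_)
    by_cases hq : 1 ≤ h * n
    · have q1 : 1 ≤ ⌊h * (n : ℝ)⌋₊ := Nat.le_floor (by exact_mod_cast hq)
      have q2 : h * n / 2 ≤ ⌊h * (n : ℝ)⌋₊ := by
        have := Nat.lt_floor_add_one (h * (n : ℝ))
        have q3 : (1 : ℝ) ≤ ⌊h * (n : ℝ)⌋₊ := by exact_mod_cast q1
        linarith
      have q4 : ((⌊h * (n : ℝ)⌋₊ : ℕ) : ℝ) ≤ h * n := Nat.floor_le (by positivity)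
      set q := ⌊h * (n : ℝ)⌋₊ with hqd
      have h5 := sum_blocks (pos s) (r := δ * size n) q1 hfar (fun i j h1 h2 h3 h4 => hosc i j h1 h2 h3 (by
        have : (j : ℝ) ≤ i + q := by exact_mod_cast h4
        linarith)) (⌈(n : ℝ) / q⌉₊) τ le_rfl hτ (by
          have h6 := Nat.le_ceil ((n : ℝ) / q)
          have hq0 : (0 : ℝ) < q := by exact_mod_cast q1
          rw [div_le_iff₀ hq0] at h6
          have h7 : n ≤ ⌈(n : ℝ) / q⌉₊ * q := by exact_mod_cast h6
          omega)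
      refine h5.trans (mul_le_mul_of_nonneg_left ?_ Real.pi_pos.le)
      have h6 : ((⌈(n : ℝ) / q⌉₊ : ℕ) : ℝ) < (n : ℝ) / q + 1 := Nat.ceil_lt_add_one (by positivity)
      have h7 : (n : ℝ) / q ≤ 2 / h := by
        have hq0 : (0 : ℝ) < q := by exact_mod_cast q1
        rw [div_le_div_iff₀ hq0 hh]
        linarith
      linarith
    · rw [not_le] at hq
      refine (tot_le _ _ _).trans (mul_le_mul_of_nonneg_left ?_ Real.pi_pos.le)
      have h6 : ((n - τ : ℕ) : ℝ) ≤ n := by exact_mod_cast Nat.sub_le n τ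
      have h7 : (n : ℝ) ≤ 1 / h := by
        rw [le_div_iff₀ hh]
        linarith
      have h8 : 1 / h ≤ 2 / h := by gcongr; norm_num
      linarith
  have h4 := (card_le_card key).trans (card_union_le _ _)
  have h5 := (Nat.cast_le (α := ℝ)).2 h4
  rw [Nat.cast_add] at h5
  linarith

end Pool.Agent.PWN
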